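import Pool.Agent.P.MP_c9a3a4_mp.H.Loc

/-! The starting point: a short interval next to an energy with trace one. -/

set_option autoImplicit false

namespace Pool.Agent.P.MP_c9a3a4_mp.H

open Finset Filter Topology ComplexConjugate

lemma exists_good2 (V : ℤ → ℝ) {N : ℕ} (hN : 3 ≤ N) (hV : ∀ n : ℤ, V (n + N) = V n) {E₀ ρ : ℝ}
    (hE₀ : uu V E₀ (N + 1) + vv V E₀ N = 1) (hρ : 0 < ρ) :
    ∃ b B : ℝ, E₀ < b ∧ b < E₀ + ρ ∧ Good2 (fun y : Set.Icc E₀ b => (y : ℝ)) B V N := by
  have cu : ∀ n, Continuous fun E => uu V E n := fun n =>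
    continuous_uu (V := fun _ => V) (fun _ => continuous_const) continuous_id n
  have cv : ∀ n, Continuous fun E => vv V E n := fun n =>
    continuous_vv (V := fun _ => V) (fun _ => continuous_const) continuous_id n
  let A1 : ℝ → ℝ := fun E => -uu V E N
  let A2 : ℝ → ℝ := fun E => uu V E (N + 1) - vv V E N
  let A3 : ℝ → ℝ := fun E => vv V E (N + 1)
  have c1 : Continuous A1 := (cu N).neg
  have c2 : Continuous A2 := (cu _).sub (cv _)
  have c3 : Continuous A3 := cv _
  let m : ℝ → ℂ := fun E => fix (A1 E) (A2 E) (A3 E)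
  have hd0 : 0 < 4 * A1 E₀ * A3 E₀ - A2 E₀ ^ 2 := by
    have := wronski V E₀ N
    have e : 4 * A1 E₀ * A3 E₀ - A2 E₀ ^ 2 = 3 := by
      simp only [A1, A2, A3]
      linear_combination 4 * this - (uu V E₀ (N + 1) + vv V E₀ N + 1) * hE₀
    rw [e]; norm_num
  have hgood : ∀ E, 0 < 4 * A1 E * A3 E - A2 E ^ 2 →
      0 < (m E).im ∧ aa V N E (m E) = 0 ∧ ContinuousAt m E := by
    intro E hE
    refine ⟨(fix_spec hE).1, ?_, continuousAt_fix c1 c2 c3 ?_⟩
    · rw [aa_eq]; exact (fix_spec hE).2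
    · intro h0
      rw [h0] at hE
      nlinarith [sq_nonneg (A2 E)]
  obtain ⟨him, hbl, hmc⟩ := hgood E₀ hd0
  have hzz : ∀ b, (zz m (E₀, b)).im ≠ 0 ∧ aa V N E₀ (zz m (E₀, b)) = 0 := by
    intro b
    cases b
    · exact ⟨by simpa [zz] using him.ne', by simpa [zz] using aa_conj hbl⟩
    · exact ⟨by simpa [zz] using him.ne', by simpa [zz] using hbl⟩
  have cb : ∀ b n, ContinuousAt (fun E => bl id V m (E, b) n) E₀ := by
    intro b n
    unfold bl
    refine continuousAt_ss (V := fun _ => V) (fun _ => continuous_const) continuous_id ?_ n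
    exact continuousAt_zz (M := fun _ => m) (x := fun E => (E, b))
      (Continuous.continuousAt (by fun_prop)) hmc
  have cb1 : ∀ b n, ContinuousAt (fun p : ℝ × ℝ => bl id V m (p.1, b) n) (E₀, E₀) := fun b n =>
    ContinuousAt.comp (f := fun p : ℝ × ℝ => p.1) (x := (E₀, E₀)) (cb b n) continuousAt_fst
  have cb2 : ∀ b n, ContinuousAt (fun p : ℝ × ℝ => bl id V m (p.2, b) n) (E₀, E₀) := fun b n =>
    ContinuousAt.comp (f := fun p : ℝ × ℝ => p.2) (x := (E₀, E₀)) (cb b n) continuousAt_snd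
  have ev1 : ∀ᶠ p : ℝ × ℝ in 𝓝 (E₀, E₀), 0 < 4 * A1 p.1 * A3 p.1 - A2 p.1 ^ 2 := by
    have hc : Continuous fun p : ℝ × ℝ => 4 * A1 p.1 * A3 p.1 - A2 p.1 ^ 2 := by fun_prop
    exact hc.continuousAt.eventually (lt_mem_nhds hd0)
  have ev2 : ∀ b, ∀ᶠ p : ℝ × ℝ in 𝓝 (E₀, E₀),
      (∑ n ∈ range N, bl id V m (p.1, b) (n + 1) * conj (bl id V m (p.2, b) (n + 1))) *
        (bl id V m (p.1, b) N + bl id V m (p.2, b) N) ≠ 0 := by
    intro b
    refine ContinuousAt.eventually_ne (ContinuousAt.mul ?_ ((cb1 b N).add (cb2 b N))) ?_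
    · exact tendsto_finsetSum _ fun n _ =>
        (cb1 b (n + 1)).mul (Complex.continuous_conj.continuousAt.comp (cb2 b (n + 1)))
    · refine mul_ne_zero (sum_self_ne_zero V (by omega) _ (hzz b).1) ?_
      have := mu_ne_zero (hzz b).1 (hzz b).2
      intro h0
      apply this
      simp only [bl, id] at h0
      linear_combination h0 / 2
  have ev3 : ∀ᶠ p : ℝ × ℝ in 𝓝 (E₀, E₀),
      bl id V m (p.1, true) N ^ 2 - bl id V m (p.2, false) N ^ 2 ≠ 0 := by
    refine ContinuousAt.eventually_ne (((cb1 true N).pow 2).sub ((cb2 false N).pow 2)) ?_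
    have e := bl_not id V m E₀ true N
    simp only [Bool.not_true] at e
    simp only [e]
    have e1 : bl id V m (E₀, true) N = ss V E₀ (m E₀) N := rfl
    rw [e1]
    have hw : (uu V E₀ (N + 1) : ℂ) * vv V E₀ N - uu V E₀ N * vv V E₀ (N + 1) = 1 := by
      exact_mod_cast wronski V E₀ N
    have ht : (uu V E₀ (N + 1) : ℂ) + vv V E₀ N = 1 := by exact_mod_cast hE₀
    have hq : ss V E₀ (m E₀) N ^ 2 = ss V E₀ (m E₀) N - 1 := by
      simp only [aa, ss] at hbl ⊢
      linear_combination (-(uu V E₀ N : ℂ)) * hbl - hw +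
        (m E₀ * uu V E₀ N + vv V E₀ N) * ht
    rw [← map_pow, hq]
    intro h0
    have h1 := congrArg Complex.im h0
    have h2 := congrArg Complex.re hq
    simp only [pow_two, Complex.sub_im, Complex.conj_im, Complex.one_im, Complex.zero_im,
      Complex.mul_re, Complex.sub_re, Complex.one_re] at h1 h2
    have h3 : (ss V E₀ (m E₀) N).im = 0 := by linarith
    rw [h3] at h2
    nlinarith [sq_nonneg ((ss V E₀ (m E₀) N).re - 1 / 2)]
  obtain ⟨η', hη', hball'⟩ := Metric.eventually_nhds_iff.1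
    (ev1.and ((ev2 true).and ((ev2 false).and ev3)))
  set η := min η' ρ with hηd
  have hη : 0 < η := lt_min hη' hρ
  have hηρ : η ≤ ρ := min_le_right _ _
  have hball := fun (p : ℝ × ℝ) (hp : dist p (E₀, E₀) < η) =>
    hball' (hp.trans_le (min_le_left _ _))
  have hI : ∀ y y' : Set.Icc E₀ (E₀ + η / 2), dist ((y : ℝ), (y' : ℝ)) (E₀, E₀) < η := by
    intro y y'
    rw [Prod.dist_eq, max_lt_iff, Real.dist_eq, Real.dist_eq, abs_lt, abs_lt]
    obtain ⟨h1, h2⟩ := y.2
    obtain ⟨h3, h4⟩ := y'.2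
    refine ⟨⟨?_, ?_⟩, ?_, ?_⟩ <;> simp only <;> linarith
  have hD : Data (fun y : Set.Icc E₀ (E₀ + η / 2) => (y : ℝ)) V N (fun y => m y) :=
    { pos := by omega
      per := hV
      im_pos := fun y => (hgood y (hball _ (hI y y)).1).1
      bloch := fun y => (hgood y (hball _ (hI y y)).1).2.1 }
  have hcm : Continuous fun y : Set.Icc E₀ (E₀ + η / 2) => m y :=
    continuous_iff_continuousAt.2 fun y =>
      ContinuousAt.comp (f := Subtype.val) (hgood y (hball _ (hI y y)).1).2.2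
        continuous_subtype_val.continuousAt
  have hsub' : ∀ (ι : Type) (x : ι → Set.Icc E₀ (E₀ + η / 2) × Bool), Function.Injective x →
      (∀ i j, bl (fun y : Set.Icc E₀ (E₀ + η / 2) => (y : ℝ)) V (fun y => m y) (x i) N ^ 2 =
        bl (fun y : Set.Icc E₀ (E₀ + η / 2) => (y : ℝ)) V (fun y => m y) (x j) N ^ 2) →
      Subsingleton ι := by
      intro ι x hx hsq
      refine ⟨fun i j => hx ?_⟩
      have h1 := hsq i j
      have h2 := hsq j i
      have o := fun hE => orth (zz_im_ne hD.im_pos (x i)) (hD.aa_zz (x i)) (hD.aa_zz (x j)) hE h1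
      rcases hi : x i with ⟨y, b⟩
      rcases hj : x j with ⟨y', b'⟩
      rw [hi, hj] at h1 h2 o
      by_contra hne
      cases b <;> cases b'
      · refine (hball _ (hI y y')).2.2.1 (o fun hE => hne ?_)
        exact Prod.ext (Subtype.ext hE) rfl
      · exact (hball _ (hI y' y)).2.2.2 (sub_eq_zero.2 h2)
      · exact (hball _ (hI y y')).2.2.2 (sub_eq_zero.2 h1)
      · refine (hball _ (hI y y')).2.1 (o fun hE => hne ?_)
        exact Prod.ext (Subtype.ext hE) rfl
  have hcb : Continuous fun y : Set.Icc E₀ (E₀ + η / 2) =>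
      ((m y).im)⁻¹ + ∑ n ∈ range N, ‖ss V y (m y) n‖ := by
    refine ((Complex.continuous_im.comp hcm).inv₀ fun y => (hD.im_pos y).ne').add
      (continuous_finsetSum _ fun n _ => continuous_iff_continuousAt.2 fun y => ?_)
    exact (continuousAt_ss (V := fun _ => V) (fun _ => continuous_const) continuous_subtype_val
      hcm.continuousAt n).norm
  obtain ⟨B, hB⟩ := (isCompact_range hcb).bddAbove
  refine ⟨E₀ + η / 2, B + 1, by linarith, by linarith, fun y => m y, 1, hcm, hD, ?_,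
    fun ι _ x hx hsq => Fintype.card_le_one_iff_subsingleton.2 (hsub' ι x hx hsq), by omega,
    fun y => ?_⟩
  · intro ι _ x hx hsq
    have hsub := hsub' ι x hx hsq
    refine ⟨lt_of_le_of_lt (Fintype.card_le_one_iff_subsingleton.2 hsub) (by omega),
      fun a ha => funext fun i => ?_⟩
    have := ha 0 (by omega)
    rw [Fintype.sum_subsingleton _ i] at this
    rcases mul_eq_zero.1 this with h | h
    · exact h
    · exfalso
      have h1 := zz_im_ne hD.im_pos (x i)
      simp only [bl, zero_add, ss_one] at h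
      rw [pow_eq_zero_iff two_ne_zero] at h
      rw [h] at h1
      simp at h1
  · have h1 : ((m y).im)⁻¹ + ∑ n ∈ range N, ‖ss V y (m y) n‖ ≤ B := hB ⟨y, rfl⟩
    have h2 : 0 < (m y).im := hD.im_pos y
    have h3 : 0 ≤ ∑ n ∈ range N, ‖ss V y (m y) n‖ := sum_nonneg fun _ _ => norm_nonneg _
    have h4 := inv_pos.2 h2
    refine ⟨?_, fun n hn => ?_⟩
    · have := mul_inv_cancel₀ h2.ne'
      nlinarith
    · have := single_le_sum (f := fun n => ‖ss V y (m y) n‖) (fun _ _ => norm_nonneg _)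
        (mem_range.2 hn)
      simp only at this ⊢
      linarith

end Pool.Agent.P.MP_c9a3a4_mp.H
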