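import Mathlib

/-! Definitions for limit-periodic Schroedinger operators with a prescribed chain of periods. -/

set_option autoImplicit false

namespace Pool.Agent.P.MP_c9a3a4_mp.H

/-- `V` is a uniform limit of sequences whose periods are taken from the sequence `p`. -/
def LP (p : ℕ → ℕ) (V : ℤ → ℝ) : Prop :=
  ∀ δ : ℝ, 0 < δ → ∃ (k : ℕ) (W : ℤ → ℝ), (∀ n : ℤ, W (n + p k) = W n) ∧ ∀ n : ℤ, |V n - W n| < δ

/-- `H` is the Schroedinger operator with potential `V` on the space of square summable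
sequences. -/
def IsSchr (V : ℤ → ℝ) (H : lp (fun _ : ℤ => ℂ) 2 →L[ℂ] lp (fun _ : ℤ => ℂ) 2) : Prop :=
  ∀ (φ : lp (fun _ : ℤ => ℂ) 2) (n : ℤ), H φ n = φ (n + 1) + φ (n - 1) + V n * φ n

end Pool.Agent.P.MP_c9a3a4_mp.H
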