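import Pool.Agent.P.MP_c9a3a4_mp.H.Defs

/-! Short names used in the final statement. -/

set_option autoImplicit false

namespace Pool.Agent.P.MP_c9a3a4_mp.H

/-- The space of square summable complex sequences on the integers. -/
def L2 : Type := lp (fun _ : ℤ => ℂ) 2

noncomputable instance : NormedAddCommGroup L2 :=
  (inferInstance : NormedAddCommGroup (lp (fun _ : ℤ => ℂ) 2))

noncomputable instance : NormedSpace ℂ L2 :=
  (inferInstance : NormedSpace ℂ (lp (fun _ : ℤ => ℂ) 2))

/-- The sequence underlying an element of `L2`. -/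
def L2.val (φ : L2) : ℤ → ℂ := Subtype.val (p := fun f => f ∈ lp (fun _ : ℤ => ℂ) 2) φ

/-- The real number `E` lies in the spectrum of the Schroedinger operator with potential `V`
on the space of square summable sequences. -/
def InSpec (V : ℤ → ℝ) (E : ℝ) : Prop :=
  ∃ H : L2 →L[ℂ] L2, (∀ (φ : L2) (n : ℤ),
    (H φ).val n = φ.val (n + 1) + φ.val (n - 1) + V n * φ.val n) ∧ (E : ℂ) ∈ spectrum ℂ H

/-- Every sufficiently good almost period of `V` is divisible by `p k`, for each `k`. -/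
def Exact (p : ℕ → ℕ) (V : ℤ → ℝ) : Prop :=
  ∀ k, ∃ η : ℝ, 0 < η ∧ ∀ t : ℤ, (∀ n, |V (n + t) - V n| < η) → (p k : ℤ) ∣ t

/-- All solutions of the difference equation at energy `E` are bounded by `C` times their
size at any two consecutive sites. -/
def BddSol (V : ℤ → ℝ) (E C : ℝ) : Prop :=
  ∀ ψ : ℤ → ℂ, (∀ n, ψ (n + 1) + ψ (n - 1) + V n * ψ n = E * ψ n) →
    ∀ k n, ‖ψ n‖ ≤ C * (‖ψ k‖ + ‖ψ (k + 1)‖)

end Pool.Agent.P.MP_c9a3a4_mp.H
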