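import Pool.Agent.P.MP_c9a3a4_mp.Weyl

/-! A sharper count of Bloch solutions, and multiplication of the period by any factor. -/

set_option autoImplicit false

namespace Pool.Agent.P.MP_c9a3a4_mp.H

open Finset Filter Topology ComplexConjugate

variable {Y : Type} {en : Y → ℝ} {V : ℤ → ℝ} {N c : ℕ} {m : Y → ℂ}

/-- At most `c` Bloch solutions share one squared multiplier. -/
def Cnt (en : Y → ℝ) (V : ℤ → ℝ) (N : ℕ) (m : Y → ℂ) (c : ℕ) : Prop :=
  ∀ (ι : Type) [Fintype ι] (x : ι → Y × Bool), Function.Injective x →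
    (∀ i j, bl en V m (x i) N ^ 2 = bl en V m (x j) N ^ 2) → Fintype.card ι ≤ c

lemma shift_mul (h : Data en V N m) (x : Y × Bool) (n k : ℕ) :
    bl en V m x (n + k * N) = bl en V m x N ^ k * bl en V m x n := by
  induction k with
  | zero => simp
  | succ k ih =>
    rw [show n + (k + 1) * N = (n + k * N) + N by ring, h.shift, ih]; ring

lemma bl_mul (h : Data en V N m) (x : Y × Bool) (k : ℕ) :
    bl en V m x (k * N) = bl en V m x N ^ k := by
  have := shift_mul h x 0 k
  simpa [bl] using this

lemma data_mul (h : Data en V N m) {r : ℕ} (hr : 0 < r) : Data en V (r * N) m where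
  pos := Nat.mul_pos hr h.pos
  per := fun n => by
    have : Function.Periodic V (N : ℤ) := h.per
    have h1 := this.nat_mul r n
    push_cast
    exact h1
  im_pos := h.im_pos
  bloch := fun y => by
    have h1 := shift_mul h (y, true) 1 r
    have h2 := bl_mul h (y, true) r
    simp only [bl, zz, cond_true, ss_one] at h1 h2
    rw [aa, add_comm, h1, h2]; ring

lemma cnt_mul (h : Data en V N m) (hc : Cnt en V N m c) {r : ℕ} (hr : 0 < r) :
    Cnt en V (r * N) m (r * c) := by
  classical
  intro ι _ x hx hsq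
  rcases isEmpty_or_nonempty ι with hι | ⟨⟨i₀⟩⟩
  · simp
  let f : ι → ℂ := fun i => bl en V m (x i) N ^ 2
  have h1 : (univ : Finset ι).card ≤ c * (univ.image f).card := by
    refine card_le_mul_card_image _ c fun a _ => ?_
    have := hc {i // f i = a} (fun i => x i.1) (hx.comp Subtype.val_injective)
      fun i j => i.2.trans j.2.symm
    rwa [Fintype.card_subtype] at this
  have h2 : (univ.image f).card ≤ r := by
    have : univ.image f ⊆ (Polynomial.nthRoots r (f i₀ ^ r)).toFinset := by
      intro a ha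
      obtain ⟨i, -, rfl⟩ := mem_image.1 ha
      rw [Multiset.mem_toFinset, Polynomial.mem_nthRoots hr]
      have := hsq i i₀
      rw [bl_mul h, bl_mul h] at this
      simp only [f]
      rw [← pow_mul, ← pow_mul, mul_comm, pow_mul, this, ← pow_mul]
    exact (card_le_card this).trans
      ((Multiset.toFinset_card_le _).trans (Polynomial.card_nthRoots _ _))
  calc Fintype.card ι ≤ c * (univ.image f).card := h1
    _ ≤ c * r := Nat.mul_le_mul_left _ h2
    _ = r * c := mul_comm _ _

lemma inv_mul (h : Data en V N m) (hI : Inv en V N m) (hc : Cnt en V N m c) (hN : c < N) {r : ℕ}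
    (hr : 0 < r) : Inv en V (r * N) m := by
  classical
  intro ι _ x hx hsq
  refine ⟨(cnt_mul h hc hr ι x hx hsq).trans_lt (Nat.mul_lt_mul_of_pos_left hN hr), fun a ha => ?_⟩
  funext i₀
  let f : ι → ℂ := fun i => bl en V m (x i) N ^ 2
  have hf : ∀ i, f i ^ r = f i₀ ^ r := fun i => by
    have := hsq i i₀
    rw [bl_mul h, bl_mul h] at this
    simp only [f]
    rw [← pow_mul, ← pow_mul, mul_comm, pow_mul, this, ← pow_mul]
  let q : ι → ℂ := fun i => ∑ k ∈ range r, f i ^ k * f i₀ ^ (r - 1 - k)
  have q0 : ∀ i, ¬ f i = f i₀ → q i = 0 := fun i hi => by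
    have := geom_sum₂_mul (f i) (f i₀) r
    rw [hf, sub_self] at this
    exact (mul_eq_zero.1 this).resolve_right (sub_ne_zero.2 hi)
  have q1 : q i₀ ≠ 0 := by
    have : q i₀ = r * f i₀ ^ (r - 1) := geom_sum₂_self _ _
    rw [this]
    exact mul_ne_zero (by exact_mod_cast hr.ne') (pow_ne_zero _ (pow_ne_zero _ (h.mu_ne _)))
  have key := (hI {i // f i = f i₀} (fun i => x i.1) (hx.comp Subtype.val_injective)
    fun i j => i.2.trans j.2.symm).2 (fun i => a i.1 * q i.1) fun n hn => by
      have e1 : ∑ i, a i * q i * bl en V m (x i) (n + 1) ^ 2 = 0 := by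
        have e2 : ∀ i, a i * q i * bl en V m (x i) (n + 1) ^ 2 = ∑ k ∈ range r,
            f i₀ ^ (r - 1 - k) * (a i * bl en V m (x i) (n + k * N + 1) ^ 2) := fun i => by
          simp only [q]
          rw [mul_sum, sum_mul]
          refine sum_congr rfl fun k _ => ?_
          rw [show n + k * N + 1 = (n + 1) + k * N by ring, shift_mul h]
          simp only [f]; ring
        simp only [e2]
        rw [sum_comm]
        refine sum_eq_zero fun k hk => ?_
        rw [← mul_sum, ha _ (by have := mem_range.1 hk; nlinarith), mul_zero]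
      rw [← Fintype.sum_subtype_add_sum_subtype (fun i => f i = f i₀)] at e1
      rwa [sum_eq_zero (s := (univ : Finset {i // ¬ f i = f i₀})) fun i _ => by
        rw [q0 _ i.2]; ring, add_zero] at e1
  exact (mul_eq_zero.1 (congrFun key ⟨i₀, rfl⟩)).resolve_right q1

/-- The closed condition for the count. -/
def Bad2 (en : Y → ℝ) (V : ℤ → ℝ) (N : ℕ) (m : Y → ℂ) (r : ℕ) (x : Fin r → Y × Bool) : Prop :=
  (∀ i j, bl en V m (x i) N ^ 2 = bl en V m (x j) N ^ 2) ∧
  ∀ i j, i ≠ j → (x i).2 = (x j).2 →
    (∑ n ∈ range N, bl en V m (x i) (n + 1) * conj (bl en V m (x j) (n + 1))) *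
      (bl en V m (x i) N + bl en V m (x j) N) = 0

lemma not_bad2 (h : Data en V N m) (hc : Cnt en V N m c) (x : Fin (c + 1) → Y × Bool) :
    ¬ Bad2 en V N m (c + 1) x := by
  rintro ⟨h1, h2⟩
  have hx : Function.Injective x := by
    intro i j hij
    by_contra hne
    have := h2 i j hne (by rw [hij])
    rw [hij] at this
    rcases mul_eq_zero.1 this with h4 | h4
    · exact sum_self_ne_zero V h.pos _ (zz_im_ne h.im_pos _) h4
    · exact h.mu_ne (x j) (by linear_combination h4 / 2)
  have := hc _ x hx h1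
  simp at this

lemma cnt_of_not_bad2 (hen : Function.Injective en) (h : Data en V N m)
    (hB : ∀ x : Fin (c + 1) → Y × Bool, ¬ Bad2 en V N m (c + 1) x) : Cnt en V N m c := by
  intro ι _ x hx hsq
  by_contra hc
  have hc' : Fintype.card (Fin (c + 1)) ≤ Fintype.card ι := by simpa using hc
  obtain ⟨e⟩ := Function.Embedding.nonempty_of_card_le hc'
  refine hB (fun k => x (e k)) ⟨fun i j => hsq _ _, fun i j hij hs => ?_⟩
  refine orth (zz_im_ne h.im_pos _) (h.aa_zz _) (h.aa_zz _) ?_ (hsq _ _)
  intro he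
  exact hij (e.injective (hx (Prod.ext (hen he) hs)))

/-- Openness of the count. -/
lemma eventually_not_bad2 [TopologicalSpace Y] [CompactSpace Y] (hen : Continuous en)
    {T : Type*} [TopologicalSpace T] {t₀ : T} {V : T → ℤ → ℝ} {M : T → Y → ℂ}
    (hV : ∀ n, Continuous fun t => V t n)
    (hM : ∀ y, ContinuousAt (fun p : T × Y => M p.1 p.2) (t₀, y))
    (h : Data en (V t₀) N (M t₀)) (hc : Cnt en (V t₀) N (M t₀) c) :
    ∀ᶠ t in 𝓝 t₀, ∀ x : Fin (c + 1) → Y × Bool, ¬ Bad2 en (V t) N (M t) (c + 1) x := by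
  have := (isCompact_univ (X := Fin (c + 1) → Y × Bool)).eventually_forall_of_forall_eventually
    (x₀ := t₀) (P := fun t k => ¬ Bad2 en (V t) N (M t) (c + 1) k) ?_
  · filter_upwards [this] with t ht x
    exact ht x trivial
  rintro x₀ -
  have hnb := not_bad2 h hc x₀
  have cx : ∀ i, Continuous fun p : T × (Fin (c + 1) → Y × Bool) => p.2 i := by
    intro i; fun_prop
  have cb : ∀ i n, ContinuousAt (fun p : T × (Fin (c + 1) → Y × Bool) =>
      bl en (V p.1) (M p.1) (p.2 i) n) (t₀, x₀) := by
    intro i n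
    unfold bl
    refine continuousAt_ss (fun k => (hV k).comp continuous_fst)
      (hen.comp (continuous_fst.comp (cx i))) ?_ n
    refine continuousAt_zz (M := fun p : T × (Fin (c + 1) → Y × Bool) => M p.1)
      (cx i).continuousAt ?_
    have hc : ContinuousAt (fun p : T × (Fin (c + 1) → Y × Bool) => (p.1, (p.2 i).1)) (t₀, x₀) :=
      (continuous_fst.prodMk (continuous_fst.comp (cx i))).continuousAt
    exact ContinuousAt.comp (f := fun p : T × (Fin (c + 1) → Y × Bool) => (p.1, (p.2 i).1))
      (hM (x₀ i).1) hc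
  unfold Bad2 at hnb
  rw [not_and_or] at hnb
  rcases hnb with hnb | hnb
  · push Not at hnb
    obtain ⟨i, j, hij⟩ := hnb
    have := (((cb i N).pow 2).sub ((cb j N).pow 2)).eventually_ne (y := 0) (sub_ne_zero.2 hij)
    filter_upwards [this] with p hp hbad
    exact hp (sub_eq_zero.2 (hbad.1 i j))
  · push Not at hnb
    obtain ⟨i, j, hij, hs, hne⟩ := hnb
    have c1 : ContinuousAt (fun p : T × (Fin (c + 1) → Y × Bool) =>
        (∑ n ∈ range N, bl en (V p.1) (M p.1) (p.2 i) (n + 1) *
          conj (bl en (V p.1) (M p.1) (p.2 j) (n + 1))) *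
        (bl en (V p.1) (M p.1) (p.2 i) N + bl en (V p.1) (M p.1) (p.2 j) N)) (t₀, x₀) := by
      refine ContinuousAt.mul ?_ ((cb i N).add (cb j N))
      exact tendsto_finsetSum _ fun n _ =>
        (cb i (n + 1)).mul (Complex.continuous_conj.continuousAt.comp (cb j (n + 1)))
    have c2 : ∀ᶠ p : T × (Fin (c + 1) → Y × Bool) in 𝓝 (t₀, x₀), (p.2 i).2 = (p.2 j).2 := by
      have : Continuous fun p : T × (Fin (c + 1) → Y × Bool) => ((p.2 i).2, (p.2 j).2) := by
        fun_prop
      exact this.continuousAt.eventually (p := fun q : Bool × Bool => q.1 = q.2)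
        ((isOpen_discrete {q : Bool × Bool | q.1 = q.2}).mem_nhds hs)
    filter_upwards [c1.eventually_ne hne, c2] with p hp hp2 hbad
    exact hp (hbad.2 i j hij hp2)

end Pool.Agent.P.MP_c9a3a4_mp.H
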