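import Pool.Agent.P.MP_c9a3a4_mp.H.Op

/-! The category argument inside a fixed chain of periods. -/

set_option autoImplicit false

namespace Pool.Agent.P.MP_c9a3a4_mp.H

open Finset Filter Topology ComplexConjugate BoundedContinuousFunction

variable {Y : Type} [TopologicalSpace Y] {en : Y → ℝ} {B : ℝ}

/-- Uniform bounds for the fundamental solutions from every starting site. -/
def Bd (E K : ℝ) (V : ℤ → ℝ) : Prop :=
  ∀ (s : ℤ) (j : ℕ), |uu (fun n => V (n + s)) E j| ≤ K ∧ |vv (fun n => V (n + s)) E j| ≤ K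

lemma Good2.bd {V : ℤ → ℝ} {N : ℕ} (h : Good2 en B V N) (y : Y) :
    Bd (en y) (2 * (B + B ^ 3) ^ 2 + 2 * B ^ 4) V := by
  obtain ⟨m, c, -, hD, -, -, -, hb⟩ := h
  have h1 := norm_lt hD (hb y).2
  have h2 := hD.im_pos y
  have hB : 1 < B := by simpa using h1 0
  have hu : ∀ j, |uu V (en y) j| ≤ B ^ 2 := fun j => by
    have a : (ss V (en y) (m y) j).im = (m y).im * uu V (en y) j := by simp [ss]
    have b := (Complex.abs_im_le_norm _).trans (h1 j).le
    rw [a, abs_mul, abs_of_pos h2] at b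
    nlinarith [(hb y).1, abs_nonneg (uu V (en y) j), mul_le_mul_of_nonneg_left b (by linarith : 0 ≤ B)]
  have hv : ∀ j, |vv V (en y) j| ≤ B + B ^ 3 := fun j => by
    have a : (vv V (en y) j : ℂ) = ss V (en y) (m y) j - m y * uu V (en y) j := by simp [ss]
    have b := norm_sub_le (ss V (en y) (m y) j) (m y * uu V (en y) j)
    rw [← a, norm_mul, Complex.norm_real, Complex.norm_real, Real.norm_eq_abs,
      Real.norm_eq_abs] at b
    have d : ‖m y‖ ≤ B := by simpa using (h1 1).le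
    have e := mul_le_mul d (hu j) (abs_nonneg _) (by linarith)
    nlinarith [h1 j]
  have hu' : ∀ j, |uu V (en y) j| ≤ B + B ^ 3 := fun j => (hu j).trans (by nlinarith)
  intro s j
  obtain ⟨t, ht⟩ : ∃ t : ℕ, ∀ n, V (n + s) = V (n + t) := by
    have p : Function.Periodic V (N : ℤ) := hD.per
    have h0 : (0 : ℤ) < N := by exact_mod_cast hD.pos
    refine ⟨(s % N).toNat, fun n => ?_⟩
    rw [Int.toNat_of_nonneg (Int.emod_nonneg _ h0.ne'), ← p.int_mul (s / N) (n + s % N)]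
    congr 1
    have := Int.emod_add_ediv_mul s N
    push_cast
    linarith
  have r : ∀ a b : ℝ, a * uu V (en y) (j + t) + b * vv V (en y) (j + t) =
      (a * uu V (en y) (1 + t) + b * vv V (en y) (1 + t)) * uu (fun n => V (n + s)) (en y) j +
      (a * uu V (en y) (0 + t) + b * vv V (en y) (0 + t)) * vv (fun n => V (n + s)) (en y) j := by
    intro a b
    have := sol_eq (V := fun n => V (n + s)) (E := en y)
      (χ := fun i => ((a * uu V (en y) (i + t) + b * vv V (en y) (i + t) : ℝ) : ℂ)) (fun i => by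
        rw [show i + 2 + t = (i + t) + 2 by ring, show i + 1 + t = (i + t) + 1 by ring, uu_rec,
          vv_rec, ht]
        push_cast; ring) j
    exact_mod_cast this
  have w := wronski V (en y) t
  have r1 := r (vv V (en y) t) (-uu V (en y) t)
  have r2 := r (-vv V (en y) (t + 1)) (uu V (en y) (t + 1))
  rw [zero_add, add_comm 1 t] at r1 r2
  have e1 : uu (fun n => V (n + s)) (en y) j =
      vv V (en y) t * uu V (en y) (j + t) - uu V (en y) t * vv V (en y) (j + t) := by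
    linear_combination -r1 - uu (fun n => V (n + s)) (en y) j * w
  have e2 : vv (fun n => V (n + s)) (en y) j =
      uu V (en y) (t + 1) * vv V (en y) (j + t) - vv V (en y) (t + 1) * uu V (en y) (j + t) := by
    linear_combination -r2 - vv (fun n => V (n + s)) (en y) j * w
  have q : ∀ a b c d : ℝ, |a| ≤ B + B ^ 3 → |b| ≤ B + B ^ 3 → |c| ≤ B + B ^ 3 → |d| ≤ B + B ^ 3 →
      |a * b - c * d| ≤ 2 * (B + B ^ 3) ^ 2 + 2 * B ^ 4 := fun a b c d ha hb hc hd => by
    have q0 : 0 ≤ B + B ^ 3 := by positivity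
    have q1 := mul_le_mul ha hb (abs_nonneg _) q0
    have q2 := mul_le_mul hc hd (abs_nonneg _) q0
    have q3 := abs_sub (a * b) (c * d)
    rw [abs_mul, abs_mul] at q3
    nlinarith [pow_pos (by linarith : 0 < B) 4]
  rw [e1, e2]
  exact ⟨q _ _ _ _ (hv _) (hu' _) (hu' _) (hv _), q _ _ _ _ (hu' _) (hv _) (hv _) (hu' _)⟩

lemma Bd.sol {E K : ℝ} {V : ℤ → ℝ} (h : Bd E K V) {ψ : ℤ → ℂ}
    (hψ : ∀ n, ψ (n + 1) + ψ (n - 1) + V n * ψ n = E * ψ n) (k n : ℤ) :
    ‖ψ n‖ ≤ 2 * K ^ 2 * (‖ψ k‖ + ‖ψ (k + 1)‖) := by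
  obtain ⟨s, hs1, hs2⟩ : ∃ s : ℤ, s ≤ k ∧ s ≤ n := ⟨min k n, min_le_left _ _, min_le_right _ _⟩
  have r := sol_eq (V := fun i => V (i + s)) (E := E) (χ := fun i => ψ (i - 1 + s)) fun i => by
    have := hψ (i + s)
    push_cast
    rw [show (i : ℤ) + 2 - 1 + s = i + s + 1 by ring, show (i : ℤ) + 1 - 1 + s = i + s by ring,
      show (i : ℤ) - 1 + s = i + s - 1 by ring]
    linear_combination this
  obtain ⟨a, ha⟩ : ∃ a : ℕ, (a : ℤ) - 1 + s = k := ⟨(k + 1 - s).toNat, by omega⟩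
  obtain ⟨b, hb⟩ : ∃ b : ℕ, (b : ℤ) - 1 + s = n := ⟨(n + 1 - s).toNat, by omega⟩
  have r1 := r a
  have r2 := r (a + 1)
  have r3 := r b
  rw [ha] at r1
  rw [show ((a + 1 : ℕ) : ℤ) - 1 + s = k + 1 by push_cast; omega] at r2
  rw [hb] at r3
  have w : (uu (fun i => V (i + s)) E (a + 1) : ℂ) * vv (fun i => V (i + s)) E a -
      uu (fun i => V (i + s)) E a * vv (fun i => V (i + s)) E (a + 1) = 1 := by
    exact_mod_cast wronski _ E a
  have hK : 0 ≤ K := (abs_nonneg _).trans (h 0 0).1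
  have q : ∀ (x z : ℂ) (c d : ℝ), |c| ≤ K → |d| ≤ K → ‖x * c + z * d‖ ≤ K * (‖x‖ + ‖z‖) :=
    fun x z c d hc hd => by
      have q1 := norm_add_le (x * c) (z * d)
      rw [norm_mul, norm_mul, Complex.norm_real, Complex.norm_real, Real.norm_eq_abs,
        Real.norm_eq_abs] at q1
      nlinarith [mul_le_mul_of_nonneg_left hc (norm_nonneg x),
        mul_le_mul_of_nonneg_left hd (norm_nonneg z)]
  have e1 : ψ (((1 : ℕ) : ℤ) - 1 + s) = ψ (k + 1) * vv (fun i => V (i + s)) E a +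
      -ψ k * vv (fun i => V (i + s)) E (a + 1) := by
    rw [r1, r2]; linear_combination -ψ (((1 : ℕ) : ℤ) - 1 + s) * w
  have e0 : ψ (((0 : ℕ) : ℤ) - 1 + s) = ψ k * uu (fun i => V (i + s)) E (a + 1) +
      -ψ (k + 1) * uu (fun i => V (i + s)) E a := by
    rw [r1, r2]; linear_combination -ψ (((0 : ℕ) : ℤ) - 1 + s) * w
  have b1 := q (ψ (k + 1)) (-ψ k) _ _ (h s a).2 (h s (a + 1)).2
  have b0 := q (ψ k) (-ψ (k + 1)) _ _ (h s (a + 1)).1 (h s a).1
  rw [← e1, norm_neg] at b1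
  rw [← e0, norm_neg] at b0
  rw [r3]
  refine (q _ _ _ _ (h s b).1 (h s b).2).trans ?_
  nlinarith [mul_le_mul_of_nonneg_left (add_le_add b1 b0) hK]

/-- All almost periods of `V` are multiples of `q`. -/
def AP (q : ℕ) (V : ℤ → ℝ) : Prop :=
  ∃ η : ℝ, 0 < η ∧ ∀ t : ℤ, (∀ n, |V (n + t) - V n| < η) → (q : ℤ) ∣ t

lemma ap_of {V : ℤ → ℝ} {l M a : ℕ} (hl : l.Prime) (hM : 0 < M) (ha : l ^ a ∣ l * M)
    (h1 : ∀ n : ℤ, V (n + (l * M : ℕ)) = V n) (h2 : ¬ ∀ n : ℤ, V (n + M) = V n) :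
    AP (l ^ a) V := by
  set N := l * M with hN
  have p : Function.Periodic V (N : ℤ) := h1
  have h0 : (0 : ℤ) < N := by exact_mod_cast Nat.mul_pos hl.pos hM
  have ev : ∀ᶠ η in 𝓝[>] (0 : ℝ), ∀ s ∈ range N,
      (∀ n, |V (n + s) - V n| < η) → ∀ n, V (n + s) = V n := by
    refine (eventually_all_finset _).2 fun s _ => ?_
    by_cases hs : ∀ n, V (n + s) = V n
    · exact Eventually.of_forall fun _ _ => hs
    · push Not at hs
      obtain ⟨n, hn⟩ := hs
      filter_upwards [mem_nhdsWithin_of_mem_nhds (Iio_mem_nhds (abs_pos.2 (sub_ne_zero.2 hn)))]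
        with η hη h
      exact absurd (h n) (not_lt.2 (le_of_lt hη))
  obtain ⟨η, e1, e2⟩ := (ev.and self_mem_nhdsWithin).exists
  refine ⟨η, e2, fun t ht => ?_⟩
  have e3 : ∀ n, V (n + t) = V (n + ((t % N).toNat : ℕ)) := fun n => by
    rw [Int.toNat_of_nonneg (Int.emod_nonneg _ h0.ne'), ← p.int_mul (t / N) (n + t % N)]
    congr 1
    have := Int.emod_add_ediv_mul t N
    push_cast
    linarith
  have pt : Function.Periodic V t := fun n => (e3 n).trans (e1 _ (mem_range.2 (by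
    have := Int.emod_lt_of_pos t h0
    omega)) (fun n => by rw [← e3]; exact ht n) n)
  have pg : Function.Periodic V ((Int.gcd t N : ℕ) : ℤ) := by
    rw [Int.gcd_eq_gcd_ab, mul_comm t, mul_comm (N : ℤ)]
    exact (pt.int_mul _).add_period (p.int_mul _)
  obtain ⟨h, hh⟩ : Int.gcd t N ∣ N := Int.natCast_dvd_natCast.1 (Int.gcd_dvd_right _ _)
  by_cases hlh : l ∣ h
  · obtain ⟨h', rfl⟩ := hlh
    have e : M = h' * Int.gcd t N := by
      apply Nat.eq_of_mul_eq_mul_left hl.pos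
      rw [← hN]; linarith
    refine absurd (fun n => ?_) h2
    have := pg.nat_mul h' n
    rw [e]; push_cast; exact this
  · have c : (l ^ a).Coprime h := Nat.Coprime.pow_left _ ((Nat.Prime.coprime_iff_not_dvd hl).2 hlh)
    rw [hh] at ha
    exact (Int.natCast_dvd_natCast.2 (c.dvd_of_dvd_mul_right ha)).trans (Int.gcd_dvd_left _ _)

/-- The category argument. -/
lemma exists_limit2 [CompactSpace Y] (hY : ∀ y : Y, (𝓝[≠] y).NeBot) (hen : Continuous en)
    (hinj : Function.Injective en) {p : ℕ → ℕ} (hp : ∀ k, 0 < p k) (hd : ∀ k, p k ∣ p (k + 1))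
    {V : ℤ → ℝ} {k₀ : ℕ} (h : Good2 en B V (p k₀)) {ε : ℝ} (hε : 0 < ε) :
    ∃ V' : ℤ → ℝ, (∀ n, |V' n - V n| < ε) ∧
      (∀ δ : ℝ, 0 < δ → ∃ (V₁ : ℤ → ℝ) (k : ℕ), Good2 en B V₁ (p k) ∧ ∀ n, |V' n - V₁ n| < δ) ∧
      (∀ k, AP (p k) V') ∧ ∀ y, Bd (en y) (2 * (B + B ^ 3) ^ 2 + 2 * B ^ 4) V' := by
  have hd' : ∀ k j, k ≤ j → p k ∣ p j := fun k j hkj => by
    induction j, hkj using Nat.le_induction with
    | base => rfl
    | succ j _ ih => exact ih.trans (hd j)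
  let G : Set (ℤ →ᵇ ℝ) := {b | ∃ k, Good2 en B (fun n => V n + b n) (p k)}
  have : CompleteSpace (closure G) := isClosed_closure.completeSpace_coe
  let U : ℕ × ℕ → Set (closure G) := fun q =>
    {b | q.1.Prime → (∃ k, q.1 ^ q.2 ∣ p k) → AP (q.1 ^ q.2) fun n => V n + b.1 n}
  have hUo : ∀ q, IsOpen (U q) := by
    intro q
    rw [Metric.isOpen_iff]
    intro b hb
    by_cases hq : q.1.Prime ∧ ∃ k, q.1 ^ q.2 ∣ p k
    · obtain ⟨η, h1, h2⟩ := hb hq.1 hq.2
      refine ⟨η / 3, by positivity, fun b' hb' _ _ => ⟨η / 3, by positivity, fun t ht =>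
        h2 t fun n => ?_⟩⟩
      rw [Metric.mem_ball, Subtype.dist_eq] at hb'
      have a1 := abs_lt.1 ((dist_coe_le_dist (f := b'.1) (g := b.1) n).trans_lt hb')
      have a2 := abs_lt.1 ((dist_coe_le_dist (f := b'.1) (g := b.1) (n + t)).trans_lt hb')
      have a3 := abs_lt.1 (ht n)
      rw [abs_lt]
      constructor <;> linarith [a1.1, a1.2, a2.1, a2.2, a3.1, a3.2]
    · exact ⟨1, one_pos, fun _ _ a b => absurd ⟨a, b⟩ hq⟩
  have hUd : ∀ q, Dense (U q) := by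
    rintro ⟨l, a⟩
    rw [Metric.dense_iff]
    rintro ⟨b, hb⟩ r hr
    by_cases hq : l.Prime ∧ a ≠ 0 ∧ ∃ k, l ^ a ∣ p k
    swap
    · refine ⟨⟨b, hb⟩, Metric.mem_ball_self hr, fun h1 h2 => ?_⟩
      obtain rfl : a = 0 := by by_contra h0; exact hq ⟨h1, h0, h2⟩
      exact ⟨1, one_pos, fun t _ => by simp⟩
    obtain ⟨hl, ha, k, hk⟩ := hq
    obtain ⟨b₁, ⟨j, hb₁⟩, hdist⟩ := Metric.mem_closure_iff.1 hb (r / 2) (by positivity)
    have g := hb₁.mul (hp (max j k)) (hd' _ _ (le_max_left j k))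
    have hk' := hk.trans (hd' _ _ (le_max_right j k))
    obtain ⟨M, hM⟩ := (dvd_pow_self l ha).trans hk'
    have hM0 : 0 < M := Nat.pos_of_mul_pos_left (hM ▸ hp _)
    obtain ⟨W, hW, hG, hne⟩ : ∃ W : ℤ → ℝ, (∀ n, |W n| ≤ r / 4) ∧
        Good2 en B (fun n => V n + b₁ n + W n) (p (max j k)) ∧
        ¬ ∀ n : ℤ, V (n + M) + b₁ (n + M) + W (n + M) = V n + b₁ n + W n := by
      by_cases hper : ∀ n : ℤ, V (n + M) + b₁ (n + M) = V n + b₁ n
      · obtain ⟨W, a1, a2, a3⟩ := g.step hY hen hinj hM0 (by nlinarith [hl.two_le])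
          (δ := r / 4) (by positivity)
        exact ⟨W, a1, a2, fun h => a3 fun n => by linarith [h n, hper n]⟩
      · exact ⟨0, fun _ => by simp only [Pi.zero_apply, abs_zero]; positivity, by simpa using g, by simpa using hper⟩
    let w : ℤ →ᵇ ℝ := ofNormedAddCommGroupDiscrete W (r / 4) hW
    have hw : ‖w‖ ≤ r / 4 := (norm_le (by positivity)).2 hW
    have e : (fun n => V n + (b₁ + w) n) = fun n => V n + b₁ n + W n := by
      funext n; simp [w, add_assoc]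
    have hmem : b₁ + w ∈ G := ⟨_, by rw [e]; exact hG⟩
    refine ⟨⟨b₁ + w, subset_closure hmem⟩, ?_, fun _ _ => ?_⟩
    · rw [Metric.mem_ball, Subtype.dist_eq]
      have a1 := dist_triangle (b₁ + w) b₁ b
      have a2 : dist (b₁ + w) b₁ = ‖w‖ := by simp
      rw [dist_comm] at hdist
      simp only
      linarith
    · change AP (l ^ a) fun n => V n + (b₁ + w) n
      rw [e]
      obtain ⟨m, c, -, hD, -⟩ := hG
      exact ap_of hl hM0 (hM ▸ hk') (hM ▸ hD.per) hne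
  have hD := dense_iInter_of_isOpen hUo hUd
  have h0 : (0 : ℤ →ᵇ ℝ) ∈ G := ⟨k₀, by simpa using h⟩
  obtain ⟨⟨b, hb⟩, hb1, hb2⟩ := Metric.dense_iff.1 hD ⟨0, subset_closure h0⟩ ε hε
  rw [Metric.mem_ball, Subtype.dist_eq, dist_zero_right] at hb1
  refine ⟨fun n => V n + b n, fun n => ?_, fun δ hδ => ?_, fun k => ?_, fun y s j => ?_⟩
  · have := b.norm_coe_le_norm n
    simp only [add_sub_cancel_left]
    exact lt_of_le_of_lt this hb1
  · obtain ⟨b₁, ⟨k, hb₁⟩, hd⟩ := Metric.mem_closure_iff.1 hb δ hδ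
    refine ⟨_, k, hb₁, fun n => ?_⟩
    have := dist_coe_le_dist (f := b) (g := b₁) n
    rw [Real.dist_eq] at this
    simp only [add_sub_add_left_eq_sub]
    exact lt_of_le_of_lt this hd
  · have ev : ∀ᶠ η in 𝓝[>] (0 : ℝ), ∀ q ∈ (p k).divisors, (∃ l a : ℕ, l.Prime ∧ q = l ^ a) →
        ∀ t : ℤ, (∀ n, |V (n + t) + b (n + t) - (V n + b n)| < η) → (q : ℤ) ∣ t := by
      refine (eventually_all_finset _).2 fun q hq => ?_
      by_cases h1 : ∃ l a : ℕ, l.Prime ∧ q = l ^ a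
      · obtain ⟨l, a, hl, rfl⟩ := h1
        obtain ⟨η, e1, e2⟩ := Set.mem_iInter.1 hb2 (l, a) hl ⟨k, Nat.dvd_of_mem_divisors hq⟩
        filter_upwards [mem_nhdsWithin_of_mem_nhds (Iio_mem_nhds e1)] with η' h' _ t ht
        exact e2 t fun n => (ht n).trans h'
      · exact Eventually.of_forall fun _ h => absurd h h1
    obtain ⟨η, e1, e2⟩ := (ev.and self_mem_nhdsWithin).exists
    refine ⟨η, e2, fun t ht => Int.natCast_dvd.2 ((Nat.dvd_iff_prime_pow_dvd_dvd _ _).2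
      fun l a hl h1 => Int.natCast_dvd.1 ?_)⟩
    exact e1 _ (Nat.mem_divisors.2 ⟨h1, (hp k).ne'⟩) ⟨l, a, hl, rfl⟩ t ht
  · have c1 : ∀ n, Continuous fun b : ℤ →ᵇ ℝ => V (n + s) + b (n + s) := fun n => by fun_prop
    have cl : IsClosed {b : ℤ →ᵇ ℝ |
        |uu (fun n => V (n + s) + b (n + s)) (en y) j| ≤ 2 * (B + B ^ 3) ^ 2 + 2 * B ^ 4 ∧
        |vv (fun n => V (n + s) + b (n + s)) (en y) j| ≤ 2 * (B + B ^ 3) ^ 2 + 2 * B ^ 4} :=
      (isClosed_le (continuous_uu c1 continuous_const j).abs continuous_const).inter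
        (isClosed_le (continuous_vv c1 continuous_const j).abs continuous_const)
    refine closure_minimal (fun b' hb' => ?_) cl hb
    obtain ⟨k, hk⟩ := hb'
    exact Good2.bd hk y s j

end Pool.Agent.P.MP_c9a3a4_mp.H
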