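import Pool.Agent.P.MP_c9a3a4_mp.H.Step2

/-! An approximate eigenvector gives a nearby energy at which the trace of the monodromy is one. -/

set_option autoImplicit false

namespace Pool.Agent.P.MP_c9a3a4_mp.H

open Finset Filter Topology ComplexConjugate

lemma eig_near {X : Type*} [NormedAddCommGroup X] [InnerProductSpace ℂ X] [FiniteDimensional ℂ X]
    {A : X →ₗ[ℂ] X} (hA : A.IsSymmetric) {u : X} {E η : ℝ} (hη : 0 ≤ η)
    (h : ‖A u - (E : ℂ) • u‖ ^ 2 < η ^ 2 * ‖u‖ ^ 2) :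
    ∃ (l : ℝ) (v : X), |l - E| < η ∧ v ≠ 0 ∧ A v = (l : ℂ) • v := by
  by_contra hc
  push Not at hc
  let b := hA.eigenvectorBasis rfl
  have h1 : ∀ i, η ≤ |hA.eigenvalues rfl i - E| := fun i => by
    by_contra h2
    exact hc _ (b i) (not_le.1 h2) (b.orthonormal.ne_zero i) (hA.apply_eigenvectorBasis rfl i)
  rw [← b.repr.norm_map, ← b.repr.norm_map u, EuclideanSpace.norm_sq_eq,
    EuclideanSpace.norm_sq_eq, mul_sum] at h
  refine absurd h (not_lt.2 (sum_le_sum fun i _ => ?_))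
  have e : b.repr (A u - (E : ℂ) • u) i = ((hA.eigenvalues rfl i - E : ℝ) : ℂ) * b.repr u i := by
    rw [map_sub, map_smul, PiLp.sub_apply, PiLp.smul_apply,
      hA.eigenvectorBasis_apply_self_apply rfl u i]
    simp only [smul_eq_mul, b]
    push_cast
    rw [sub_mul]
    rfl
  rw [e, norm_mul, mul_pow, Complex.norm_real, Real.norm_eq_abs]
  exact mul_le_mul_of_nonneg_right (pow_le_pow_left₀ hη (h1 i) 2) (sq_nonneg _)

lemma sol_eq {V : ℤ → ℝ} {E : ℝ} {χ : ℕ → ℂ}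
    (h : ∀ j, χ (j + 2) = ((E - V j : ℝ) : ℂ) * χ (j + 1) - χ j) (j : ℕ) :
    χ j = χ 1 * uu V E j + χ 0 * vv V E j := by
  have key : ∀ j : ℕ, χ j = χ 1 * uu V E j + χ 0 * vv V E j ∧
      χ (j + 1) = χ 1 * uu V E (j + 1) + χ 0 * vv V E (j + 1) := by
    intro j
    induction j with
    | zero => simp
    | succ k ih =>
      refine ⟨ih.2, ?_⟩
      rw [h k, uu_rec, vv_rec]
      push_cast
      linear_combination ((E : ℂ) - V k) * ih.2 - ih.1
  exact (key j).1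

lemma sum_zmod {N : ℕ} [NeZero N] (f : ℕ → ℝ) : ∑ x : ZMod N, f x.val = ∑ n ∈ range N, f n := by
  obtain ⟨n, rfl⟩ := Nat.exists_eq_succ_of_ne_zero (NeZero.ne N)
  exact Fin.sum_univ_eq_sum_range f (n + 1)

lemma trace_near {W : ℤ → ℝ} {N : ℕ} (hN : 0 < N) (hW : ∀ n : ℤ, W (n + N) = W n) (s : ℤ)
    (φ : ℤ → ℂ) (hφ : ∀ n, φ n ≠ 0 → s < n ∧ n < s + N - 1) {E η : ℝ} (hη : 0 ≤ η)
    (h : ∑ n ∈ range N, ‖φ (s + n + 1) + φ (s + n - 1) + (W (s + n) - E) * φ (s + n)‖ ^ 2 <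
      η ^ 2 * ∑ n ∈ range N, ‖φ (s + n)‖ ^ 2) :
    ∃ E₁ : ℝ, |E₁ - E| < η ∧ uu W E₁ (N + 1) + vv W E₁ N = 1 := by
  have : NeZero N := ⟨hN.ne'⟩
  set κ : ℂ := Complex.exp ((Real.pi / (3 * N) : ℝ) * Complex.I) with hκ
  have hκ1 : ‖κ‖ = 1 := Complex.norm_exp_ofReal_mul_I _
  have hκ0 : κ ≠ 0 := Complex.exp_ne_zero _
  have hκc : conj κ = κ⁻¹ := (Complex.inv_eq_conj hκ1).symm
  have hμ : (κ ^ N) ^ 2 = κ ^ N - 1 := by
    have e : κ ^ N = Complex.exp ((Real.pi / 3 : ℝ) * Complex.I) := by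
      rw [hκ, ← Complex.exp_nat_mul]
      congr 1
      have : (N : ℂ) ≠ 0 := by exact_mod_cast hN.ne'
      push_cast
      field_simp
    rw [e, Complex.exp_mul_I, ← Complex.ofReal_cos, ← Complex.ofReal_sin, Real.cos_pi_div_three,
      Real.sin_pi_div_three]
    have h3 : ((√3 : ℝ) : ℂ) ^ 2 = 3 := by exact_mod_cast Real.sq_sqrt (by norm_num : (0 : ℝ) ≤ 3)
    push_cast
    linear_combination (Complex.I ^ 2 / 4) * h3 + (3 / 4) * Complex.I_sq
  let A : EuclideanSpace ℂ (ZMod N) →ₗ[ℂ] EuclideanSpace ℂ (ZMod N) :=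
    { toFun := fun u => WithLp.toLp 2 fun x =>
        κ * u (x + 1) + κ⁻¹ * u (x - 1) + W (s + x.val) * u x
      map_add' := fun a b => by ext x; simp only [PiLp.add_apply]; ring
      map_smul' := fun a b => by
        ext x; simp only [PiLp.smul_apply, smul_eq_mul, RingHom.id_apply]; ring }
  have hAx : ∀ u x, A u x = κ * u (x + 1) + κ⁻¹ * u (x - 1) + W (s + x.val) * u x :=
    fun _ _ => rfl
  have hA : A.IsSymmetric := by
    intro u v
    simp only [PiLp.inner_apply, hAx, RCLike.inner_apply, map_add, map_mul, map_inv₀, hκc, inv_inv,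
      Complex.conj_ofReal, add_mul, mul_add, sum_add_distrib]
    have e1 := Equiv.sum_comp (Equiv.addRight (1 : ZMod N))
      fun x => κ⁻¹ * v (x - 1) * conj (u x)
    have e2 := Equiv.sum_comp (Equiv.addRight (1 : ZMod N))
      fun x => v x * (κ * conj (u (x - 1)))
    simp only [Equiv.coe_addRight, add_sub_cancel_right] at e1 e2
    rw [← e1, ← e2, add_comm (∑ x, κ * v (x + 1) * conj (u x))]
    congr 1
    · congr 1 <;> exact sum_congr rfl fun x _ => by ring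
    · exact sum_congr rfl fun x _ => by ring
  let u : EuclideanSpace ℂ (ZMod N) := WithLp.toLp 2 fun x => κ ^ (-(x.val : ℤ)) * φ (s + x.val)
  have z : ∀ n, n ≤ s ∨ s + N - 1 ≤ n → φ n = 0 := fun n hn => by
    by_contra h0
    have := hφ n h0
    omega
  have hu : ∀ k : ℤ, -1 ≤ k → k ≤ N → u (k : ZMod N) = κ ^ (-k) * φ (s + k) := by
    intro k h1 h2
    change κ ^ (-((k : ZMod N).val : ℤ)) * φ (s + (k : ZMod N).val) = _
    rw [ZMod.val_intCast]
    rcases h1.eq_or_lt with rfl | h1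
    · have : (-1 : ℤ) % N = N - 1 := by
        rw [← Int.add_emod_right, Int.emod_eq_of_lt (by omega) (by omega)]; ring
      rw [this, z _ (Or.inr (by omega)), z _ (Or.inl (by omega)), mul_zero, mul_zero]
    rcases h2.eq_or_lt with rfl | h2
    · rw [Int.emod_self, z _ (Or.inl (by omega)), z _ (Or.inr (by omega)), mul_zero, mul_zero]
    · rw [Int.emod_eq_of_lt (by omega) h2]
  have hx : ∀ x : ZMod N, ((x.val : ℤ) : ZMod N) = x := fun x => by simp
  have n1 : ∀ x : ZMod N, ‖u x‖ = ‖φ (s + x.val)‖ := fun x => by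
    change ‖κ ^ (-(x.val : ℤ)) * φ (s + x.val)‖ = _
    rw [norm_mul, norm_zpow, hκ1, one_zpow, one_mul]
  have n2 : ∀ x : ZMod N, ‖(A u - (E : ℂ) • u) x‖ =
      ‖φ (s + x.val + 1) + φ (s + x.val - 1) + (W (s + x.val) - E) * φ (s + x.val)‖ := fun x => by
    have hlt : (x.val : ℤ) < N := by exact_mod_cast ZMod.val_lt x
    have a1 := hu (x.val + 1) (by omega) (by omega)
    have a2 := hu (x.val - 1) (by omega) (by omega)
    have a3 := hu x.val (by omega) (by omega)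
    push_cast [hx] at a1 a2
    rw [hx] at a3
    rw [PiLp.sub_apply, PiLp.smul_apply, hAx, a1, a2, a3, smul_eq_mul]
    have e : κ * (κ ^ (-((x.val : ℤ) + 1)) * φ (s + (x.val + 1))) +
        κ⁻¹ * (κ ^ (-((x.val : ℤ) - 1)) * φ (s + (x.val - 1))) +
        W (s + x.val) * (κ ^ (-(x.val : ℤ)) * φ (s + x.val)) -
        E * (κ ^ (-(x.val : ℤ)) * φ (s + x.val)) = κ ^ (-(x.val : ℤ)) *
        (φ (s + x.val + 1) + φ (s + x.val - 1) + (W (s + x.val) - E) * φ (s + x.val)) := by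
      rw [neg_add, neg_sub, zpow_add₀ hκ0, zpow_sub₀ hκ0, ← add_assoc, ← add_sub_assoc]
      simp only [zpow_neg, zpow_one]
      have := zpow_ne_zero (x.val : ℤ) hκ0
      field_simp
      ring
    rw [e, norm_mul, norm_zpow, hκ1, one_zpow, one_mul]
  obtain ⟨l, v, h1, h2, h3⟩ := eig_near hA (u := u) (E := E) hη (by
    rw [EuclideanSpace.norm_sq_eq, EuclideanSpace.norm_sq_eq]
    simp only [n1, n2]
    rw [sum_zmod (fun n => ‖φ (s + n + 1) + φ (s + n - 1) + (W (s + n) - E) * φ (s + n)‖ ^ 2),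
      sum_zmod (fun n => ‖φ (s + n)‖ ^ 2)]
    exact h)
  refine ⟨l, h1, ?_⟩
  let χ : ℕ → ℂ := fun j => κ ^ j * v (((j : ℤ) - 1 - s : ℤ) : ZMod N)
  have hχ : ∀ j, χ (j + 2) = ((l - W j : ℝ) : ℂ) * χ (j + 1) - χ j := fun j => by
    have a := congrArg (fun w : EuclideanSpace ℂ (ZMod N) => w (((j : ℤ) - s : ℤ) : ZMod N)) h3
    simp only [hAx, PiLp.smul_apply, smul_eq_mul] at a
    have w : W (s + ((((j : ℤ) - s : ℤ) : ZMod N).val : ℤ)) = W j := by
      have p : Function.Periodic W (N : ℤ) := hW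
      rw [ZMod.val_intCast, ← p.int_mul (((j : ℤ) - s) / N) _]
      congr 1
      have := Int.emod_add_ediv_mul ((j : ℤ) - s) N
      push_cast
      linarith
    rw [w] at a
    have e1 : ((((j + 2 : ℕ) : ℤ) - 1 - s : ℤ) : ZMod N) = (((j : ℤ) - s : ℤ) : ZMod N) + 1 := by
      push_cast; ring
    have e2 : ((((j + 1 : ℕ) : ℤ) - 1 - s : ℤ) : ZMod N) = (((j : ℤ) - s : ℤ) : ZMod N) := by
      push_cast; ring
    have e3 : (((j : ℤ) - 1 - s : ℤ) : ZMod N) = (((j : ℤ) - s : ℤ) : ZMod N) - 1 := by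
      push_cast; ring
    simp only [χ, e1, e2, e3]
    have : κ⁻¹ * κ = 1 := inv_mul_cancel₀ hκ0
    push_cast at a ⊢
    linear_combination κ ^ (j + 1) * a - κ ^ j * v ((j : ZMod N) - s - 1) * this
  have per : ∀ j, χ (j + N) = κ ^ N * χ j := fun j => by
    have e : ((((j + N : ℕ) : ℤ) - 1 - s : ℤ) : ZMod N) = (((j : ℤ) - 1 - s : ℤ) : ZMod N) := by
      push_cast; simp
    simp only [χ, e]; ring
  have b0 := sol_eq hχ N
  have b1 := sol_eq hχ (N + 1)
  have c0 := per 0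
  have c1 := per 1
  rw [zero_add, b0] at c0
  rw [add_comm, b1] at c1
  have hw : (uu W l (N + 1) : ℂ) * vv W l N - uu W l N * vv W l (N + 1) = 1 := by
    exact_mod_cast wronski W l N
  by_contra hne
  have hne' : κ ^ N * (1 - ((uu W l (N + 1) : ℂ) + vv W l N)) ≠ 0 :=
    mul_ne_zero (pow_ne_zero _ hκ0) (sub_ne_zero.2 fun h0 => hne (by exact_mod_cast h0.symm))
  have d0 : χ 0 = 0 := by
    apply mul_left_cancel₀ hne'
    linear_combination (uu W l (N + 1) - κ ^ N) * c0 - uu W l N * c1 - χ 0 * hw - χ 0 * hμ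
  have d1 : χ 1 = 0 := by
    apply mul_left_cancel₀ hne'
    linear_combination (vv W l N - κ ^ N) * c1 - vv W l (N + 1) * c0 - χ 1 * hw - χ 1 * hμ
  apply h2
  ext x
  have e := sol_eq hχ (x + 1 + s).val
  rw [d0, d1] at e
  simp only [χ, zero_mul, add_zero, mul_eq_zero, pow_eq_zero_iff', hκ0, false_and, false_or] at e
  rw [show ((((x + 1 + s).val : ℕ) : ℤ) - 1 - s : ℤ) = (((x + 1 + s).val : ℕ) : ℤ) - 1 - s from rfl]
    at e
  push_cast [hx] at e
  rwa [show x + 1 + s - 1 - s = x by ring] at e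

end Pool.Agent.P.MP_c9a3a4_mp.H
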