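import Pool.Agent.P.MP_c9a3a4_mp.H.Defs
import Pool.Agent.P.MP_c9a3a4_mp.H.Base2

/-! The operator: existence, approximate eigenvectors, and the spectrum. -/

set_option autoImplicit false

namespace Pool.Agent.P.MP_c9a3a4_mp.H

open Finset Filter Topology ComplexConjugate

lemma mem_shift (φ : lp (fun _ : ℤ => ℂ) 2) (k : ℤ) : Memℓp (fun n => φ (n + k)) 2 :=
  memℓp_gen ((Equiv.addRight k).summable_iff.2 ((lp.memℓp φ).summable (by norm_num)))

lemma norm_shift (φ : lp (fun _ : ℤ => ℂ) 2) (k : ℤ) :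
    ‖(⟨fun n => φ (n + k), mem_shift φ k⟩ : lp (fun _ : ℤ => ℂ) 2)‖ = ‖φ‖ := by
  rw [lp.norm_eq_tsum_rpow (by norm_num), lp.norm_eq_tsum_rpow (by norm_num) φ]
  congr 1
  exact (Equiv.addRight k).tsum_eq fun n => ‖φ n‖ ^ (2 : ENNReal).toReal

lemma exists_schr {V : ℤ → ℝ} {C : ℝ} (hC : ∀ n, |V n| ≤ C) : ∃ H, IsSchr V H := by
  have hC0 : 0 ≤ C := (abs_nonneg _).trans (hC 0)
  have b : ∀ (φ : lp (fun _ : ℤ => ℂ) 2) (n : ℤ), ‖(V n : ℂ) * φ n‖ ≤ ‖((C : ℂ) • φ) n‖ :=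
    fun φ n => by
      rw [lp.coeFn_smul, Pi.smul_apply, smul_eq_mul, norm_mul, norm_mul, Complex.norm_real,
        Complex.norm_real, Real.norm_eq_abs, Real.norm_eq_abs, abs_of_nonneg hC0]
      exact mul_le_mul_of_nonneg_right (hC n) (norm_nonneg _)
  have m : ∀ φ : lp (fun _ : ℤ => ℂ) 2, Memℓp (fun n => (V n : ℂ) * φ n) 2 := fun φ =>
    (lp.memℓp ((C : ℂ) • φ)).mono' (b φ)
  let S : ℤ → lp (fun _ : ℤ => ℂ) 2 →L[ℂ] lp (fun _ : ℤ => ℂ) 2 := fun k =>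
    LinearMap.mkContinuous
      { toFun := fun φ => ⟨fun n => φ (n + k), mem_shift φ k⟩
        map_add' := fun _ _ => rfl
        map_smul' := fun _ _ => rfl } 1 fun φ => by rw [one_mul]; exact (norm_shift φ k).le
  let M : lp (fun _ : ℤ => ℂ) 2 →L[ℂ] lp (fun _ : ℤ => ℂ) 2 :=
    LinearMap.mkContinuous
      { toFun := fun φ => ⟨fun n => (V n : ℂ) * φ n, m φ⟩
        map_add' := fun φ ψ => lp.ext (funext fun n => mul_add (V n : ℂ) (φ n) (ψ n))
        map_smul' := fun a φ => lp.ext (funext fun n => mul_left_comm (V n : ℂ) a (φ n)) } C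
      fun φ => by
        refine (lp.norm_mono (p := 2) (by norm_num) (y := (C : ℂ) • φ) (b φ)).trans (le_of_eq ?_)
        rw [norm_smul, Complex.norm_real, Real.norm_eq_abs, abs_of_nonneg hC0]
  exact ⟨S 1 + S (-1) + M, fun φ n => rfl⟩

lemma mem_spec {V : ℤ → ℝ} {H : lp (fun _ : ℤ => ℂ) 2 →L[ℂ] lp (fun _ : ℤ => ℂ) 2}
    (hH : IsSchr V H) {E : ℝ}
    (happrox : ∀ δ : ℝ, 0 < δ → ∃ (V₁ : ℤ → ℝ) (N : ℕ) (z : ℂ), 0 < N ∧
      (∀ n : ℤ, V₁ (n + N) = V₁ n) ∧ z.im ≠ 0 ∧ aa V₁ N E z = 0 ∧ ∀ n, |V n - V₁ n| ≤ δ) :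
    (E : ℂ) ∈ spectrum ℂ H := by
  rw [spectrum.mem_iff]
  rintro ⟨u, hu⟩
  have key : ∀ (φ : lp (fun _ : ℤ => ℂ) 2) (n : ℤ),
      u.val φ n = E * φ n - (φ (n + 1) + φ (n - 1) + V n * φ n) := fun φ n => by
    rw [hu, ← hH φ n]
    rfl
  refine weyl happrox ⟨⟨-u⁻¹.val, fun φ n => ?_⟩, fun ψ hψ h => ?_⟩
  · have a := key (u⁻¹.val φ) n
    rw [← mul_apply_eq_comp, Units.mul_inv, one_apply_eq_self] at a
    simp only [neg_apply, lp.coeFn_neg, Pi.neg_apply]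
    linear_combination -a
  · have a : u.val ⟨ψ, hψ⟩ = 0 := lp.ext (funext fun n => by
      rw [key]
      change E * ψ n - (ψ (n + 1) + ψ (n - 1) + V n * ψ n) = 0
      linear_combination -h n)
    have b := congrArg u⁻¹.val a
    rw [← mul_apply_eq_comp, Units.inv_mul, one_apply_eq_self,
      map_zero] at b
    exact congrArg Subtype.val b

lemma approx {V : ℤ → ℝ} {H : lp (fun _ : ℤ => ℂ) 2 →L[ℂ] lp (fun _ : ℤ => ℂ) 2}
    (hH : IsSchr V H) {E : ℝ} (hE : (E : ℂ) ∈ spectrum ℂ H) {η : ℝ} (hη : 0 < η) :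
    ∃ (s : Finset ℤ) (g : ℤ → ℂ),
      ‖(algebraMap ℂ _ (E : ℂ) - H) (trunc s g)‖ < η * ‖trunc s g‖ := by
  by_contra hc
  push Not at hc
  set T := algebraMap ℂ _ (E : ℂ) - H with hT
  have key : ∀ (φ : lp (fun _ : ℤ => ℂ) 2) (n : ℤ),
      T φ n = E * φ n - (φ (n + 1) + φ (n - 1) + V n * φ n) := fun φ n => by
    rw [hT, ← hH φ n]
    rfl
  have h1 : ∀ φ, η * ‖φ‖ ≤ ‖T φ‖ := fun φ => by
    have t : Tendsto (fun s : Finset ℤ => trunc s φ) atTop (𝓝 φ) :=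
      lp.hasSum_single (by norm_num) φ
    exact le_of_tendsto_of_tendsto' (t.norm.const_mul η) ((T.continuous.tendsto φ).comp t).norm
      fun s => hc s φ
  refine spectrum.mem_iff.1 hE (ContinuousLinearMap.isUnit_iff_bijective.2
    ((T.bijective_iff_dense_range_and_antilipschitz).2 ⟨?_, ⟨η⁻¹, by positivity⟩, ?_⟩))
  · rw [Submodule.topologicalClosure_eq_top_iff, Submodule.eq_bot_iff]
    intro ψ hψ
    have h2 : T ψ = 0 := lp.ext (funext fun n => by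
      have a := hψ (T (lp.single 2 n 1)) ⟨_, rfl⟩
      have e : T (lp.single 2 n 1) = lp.single 2 n ((E : ℂ) - V n) - lp.single 2 (n - 1) 1 -
          lp.single 2 (n + 1) 1 := lp.ext (funext fun k => by
        rw [key]
        simp only [lp.coeFn_sub, Pi.sub_apply, lp.coeFn_single, Pi.single_apply]
        split_ifs <;> first | omega | (subst_vars; ring))
      rw [e, inner_sub_left, inner_sub_left, lp.inner_single_left, lp.inner_single_left,
        lp.inner_single_left] at a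
      simp only [RCLike.inner_apply, map_sub, Complex.conj_ofReal, map_one] at a
      rw [key]
      change _ = (0 : ℂ)
      linear_combination a)
    have h3 := h1 ψ
    rw [h2, norm_zero] at h3
    exact norm_le_zero_iff.1 (by nlinarith [norm_nonneg ψ])
  · refine T.antilipschitz_of_bound fun φ => ?_
    change ‖φ‖ ≤ η⁻¹ * ‖T φ‖
    rw [le_inv_mul_iff₀ hη]
    exact h1 φ

/-- An energy with trace one near a point of the spectrum, for all large periods. -/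
lemma exists_energy {V : ℤ → ℝ} {H : lp (fun _ : ℤ => ℂ) 2 →L[ℂ] lp (fun _ : ℤ => ℂ) 2}
    (hH : IsSchr V H) {E : ℝ} (hE : (E : ℂ) ∈ spectrum ℂ H) {η : ℝ} (hη : 0 < η) :
    ∃ N₀ : ℕ, ∀ (W : ℤ → ℝ) (N : ℕ), N₀ < N → (∀ n : ℤ, W (n + N) = W n) →
      (∀ n, |V n - W n| ≤ η) → ∃ E₁ : ℝ, |E₁ - E| < 2 * η ∧ uu W E₁ (N + 1) + vv W E₁ N = 1 := by
  obtain ⟨s, g, h⟩ := approx hH hE hη
  obtain ⟨K, hK⟩ : ∃ K : ℕ, ∀ n ∈ s, n.natAbs ≤ K :=
    ⟨s.sup Int.natAbs, fun n hn => le_sup (f := Int.natAbs) hn⟩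
  refine ⟨2 * K + 3, fun W N hN hW hVW => ?_⟩
  set φ := trunc s g with hφ
  set T := algebraMap ℂ _ (E : ℂ) - H with hT
  have key : ∀ n : ℤ, T φ n = E * φ n - (φ (n + 1) + φ (n - 1) + V n * φ n) := fun n => by
    rw [hT, ← hH φ n]
    rfl
  refine trace_near (by omega) hW (-K - 1) φ (fun n hn => ?_) (by positivity) ?_
  · rw [hφ, trunc_apply] at hn
    have := hK n (by by_contra h0; exact hn (if_neg h0))
    omega
  have inj : Set.InjOn (fun n : ℕ => -(K : ℤ) - 1 + n) (range N) := fun a _ b _ hab => by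
    simpa using hab
  have a1 : ∑ n ∈ range N, ‖T φ (-K - 1 + n)‖ ^ 2 ≤ ‖T φ‖ ^ 2 := by
    have := lp.sum_rpow_le_norm_rpow (p := 2) (by norm_num) (T φ)
      ((range N).image fun n : ℕ => -(K : ℤ) - 1 + n)
    rw [sum_image inj] at this
    simpa using this
  have a2 : ‖φ‖ ^ 2 ≤ ∑ n ∈ range N, ‖φ (-K - 1 + n)‖ ^ 2 := by
    rw [← sum_image (f := fun n => ‖φ n‖ ^ 2) inj, hφ, norm_trunc_sq]
    refine le_trans (le_of_eq (sum_congr rfl fun n hn => by rw [trunc_apply, if_pos hn]))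
      (sum_le_sum_of_subset_of_nonneg (fun n hn => ?_) fun _ _ _ => sq_nonneg _)
    have := hK n hn
    exact mem_image.2 ⟨(n + K + 1).toNat, mem_range.2 (by omega), by omega⟩
  have a3 : ‖T φ‖ ^ 2 < η ^ 2 * ‖φ‖ ^ 2 := by
    rw [← mul_pow]
    exact pow_lt_pow_left₀ h (norm_nonneg _) two_ne_zero
  have a4 : ∀ n : ℤ, ‖φ (n + 1) + φ (n - 1) + (W n - E) * φ n‖ ^ 2 ≤
      2 * ‖T φ n‖ ^ 2 + 2 * η ^ 2 * ‖φ n‖ ^ 2 := fun n => by
    have e : φ (n + 1) + φ (n - 1) + (W n - E) * φ n = -T φ n - ((V n - W n : ℝ) : ℂ) * φ n := by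
      rw [key]; push_cast; ring
    have b1 := norm_sub_le (-T φ n) (((V n - W n : ℝ) : ℂ) * φ n)
    rw [norm_neg, norm_mul, Complex.norm_real, Real.norm_eq_abs] at b1
    have b2 := mul_le_mul_of_nonneg_right (hVW n) (norm_nonneg (φ n))
    rw [e]
    have b3 := pow_le_pow_left₀ (norm_nonneg _) (b1.trans (add_le_add_right b2 _)) 2
    nlinarith [sq_nonneg (‖T φ n‖ - η * ‖φ n‖)]
  refine (sum_le_sum fun n _ => a4 _).trans_lt ?_
  rw [sum_add_distrib, ← mul_sum, ← mul_sum]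
  nlinarith [mul_le_mul_of_nonneg_left a2 (sq_nonneg η)]

end Pool.Agent.P.MP_c9a3a4_mp.H
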