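import Pool.Agent.P.MP_c9a3a4_mp.H.Inv2

/-! The closing step at a fixed period, and the inductive step with bounds. -/

set_option autoImplicit false

namespace Pool.Agent.P.MP_c9a3a4_mp.H

open Finset Filter Topology ComplexConjugate

variable {Y : Type}

/-- A direction that keeps the gaps closed to first order and is not `M`-periodic. -/
lemma exists_dir2 {en : Y → ℝ} {V : ℤ → ℝ} {N c M : ℕ} {m : Y → ℂ} (h : Data en V N m)
    (hc : Cnt en V N m c) (hM0 : 0 < M) (hM : c + M < N) {R : Type} [Fintype R] (e : R → Y)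
    (he : Function.Injective e) (hR : ∀ j, bl en V m (e j, true) N ^ 2 = 1) :
    ∃ w : Fin N → ℝ, (∀ j, ∑ k : Fin N, (w k : ℂ) * bl en V m (e j, true) (k + 1) ^ 2 = 0) ∧
      ∃ n : ℤ, w (red h.pos (n + M)) ≠ w (red h.pos n) := by
  classical
  have h1 : ∀ x : R × Bool, bl en V m (e x.1, x.2) N ^ 2 = 1 := by
    rintro ⟨j, b⟩
    cases b
    · have := bl_not en V m (e j) true N
      simp only [Bool.not_true] at this
      rw [this, ← map_pow, hR]; simp
    · exact hR j
  have h2 := hc (R × Bool) (fun x => (e x.1, x.2)) (by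
    rintro ⟨a, b⟩ ⟨a', b'⟩ h
    simp only [Prod.mk.injEq] at h
    exact Prod.ext (he h.1) h.2) (fun i j => by rw [h1, h1])
  let A : (Fin N → ℝ) →ₗ[ℝ] (R → ℂ) × (Fin M → ℝ) :=
    { toFun := fun w => (fun j => ∑ k : Fin N, (w k : ℂ) * bl en V m (e j, true) (k + 1) ^ 2,
        fun k => w (red h.pos (k : ℕ)))
      map_add' := fun a b => by
        refine Prod.ext (funext fun j => ?_) rfl
        simp only [Pi.add_apply, Prod.fst_add, Complex.ofReal_add, add_mul, sum_add_distrib]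
      map_smul' := fun a b => by
        refine Prod.ext (funext fun j => ?_) rfl
        simp only [Pi.smul_apply, smul_eq_mul, Prod.smul_fst, RingHom.id_apply, Complex.ofReal_mul,
          Complex.real_smul, mul_sum, mul_assoc] }
  have hk : LinearMap.ker A ≠ ⊥ := by
    apply LinearMap.ker_ne_bot_of_finrank_lt
    simp only [Fintype.card_prod, Fintype.card_bool] at h2
    rw [Module.finrank_prod, Module.finrank_pi_fintype, Module.finrank_fin_fun,
      Module.finrank_fin_fun]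
    simp only [Complex.finrank_real_complex, sum_const, card_univ, smul_eq_mul]
    omega
  obtain ⟨w, hw, hw0⟩ := (Submodule.ne_bot_iff _).1 hk
  have hw1 := LinearMap.mem_ker.1 hw
  refine ⟨w, fun j => congrFun (congrArg Prod.fst hw1) j, ?_⟩
  by_contra hper
  push Not at hper
  apply hw0
  funext k
  have p1 : Function.Periodic (fun n : ℤ => w (red h.pos n)) (M : ℤ) := hper
  have p2 := p1.nat_mul (k / M) ((k % M : ℕ) : ℤ)
  have p3 : w (red h.pos ((k % M : ℕ) : ℤ)) = 0 :=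
    congrFun (congrArg Prod.snd hw1) ⟨k % M, Nat.mod_lt _ hM0⟩
  have p4 : (((k : ℕ) % M : ℕ) : ℤ) + (((k : ℕ) / M : ℕ) : ℤ) * M = ((k : ℕ) : ℤ) := by
    exact_mod_cast Nat.mod_add_div' k M
  rw [p4, red_fin, p3] at p2
  exact p2

/-- The closing step: a small perturbation that keeps every gap closed and is not `M`-periodic. -/
lemma exists_closing2 {en : Y → ℝ} {V : ℤ → ℝ} {N c M : ℕ} {m : Y → ℂ} (h : Data en V N m)
    (hI : Inv en V N m) (hc : Cnt en V N m c) (hM0 : 0 < M) (hM : c + M < N) {R : Type}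
    [Fintype R] (e : R → Y) (he : Function.Injective e) (hR : ∀ j, Closed V N (en (e j)))
    (hcc : ∀ j, cc V N (en (e j)) (en (e j)) (m (e j)) = 0) :
    ∃ᶠ t : (Fin N → ℝ) × (R → ℝ) in 𝓝 0,
      (∀ j, Closed (fun n => V n + t.1 (red h.pos n)) N (en (e j) + t.2 j)) ∧
      ¬ ∀ n : ℤ, t.1 (red h.pos (n + M)) = t.1 (red h.pos n) := by
  classical
  obtain ⟨w₀, hw3, n₀, hn₀⟩ := exists_dir2 h hc hM0 hM e he fun j => (hR j).mu_sq _
  let T := (Fin N → ℝ) × (R → ℝ)
  let Vt : T → ℤ → ℝ := fun t n => V n + t.1 (red h.pos n)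
  let Et : R → T → ℝ := fun j t => en (e j) + t.2 j
  have hVt : ∀ n, ContDiff ℝ 1 fun t => Vt t n := by
    intro n; simp only [Vt, T]; fun_prop
  have hEt : ∀ j, ContDiff ℝ 1 (Et j) := by
    intro j; simp only [Et, T]; fun_prop
  have hVt0 : Vt 0 = V := by funext n; simp [Vt]
  have hEt0 : ∀ j, Et j 0 = en (e j) := by intro j; simp [Et]
  let p1 : Fin N → T →L[ℝ] ℝ := fun k =>
    (ContinuousLinearMap.proj k).comp (ContinuousLinearMap.fst ℝ _ _)
  let p2 : R → T →L[ℝ] ℝ := fun j =>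
    (ContinuousLinearMap.proj j).comp (ContinuousLinearMap.snd ℝ _ _)
  let l : R → ℕ → T →L[ℝ] ℝ := fun j n => p2 j - p1 (red h.pos n)
  have hl : ∀ j n t, l j n t = t.2 j - t.1 (red h.pos n) := fun j n t => rfl
  let G : R → ℕ → T → ℂ × ℝ := fun j n t =>
    (ss (Vt t) (Et j t) (m (e j)) (n + 1) * ss V (en (e j)) (m (e j)) (n + 1),
      uu (Vt t) (Et j t) (n + 1) * uu V (en (e j)) (n + 1))
  have hG : ∀ j n, ContDiff ℝ 1 (G j n) := by
    intro j n
    exact ((contDiff_ss hVt (hEt j) _ _).mul contDiff_const).prodMk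
      ((contDiff_rs hVt (hEt j) 0 1 _).mul contDiff_const)
  let Φ : T → R → ℂ × ℝ := fun t j => ∑ n ∈ range N, l j n t • G j n t
  let L : T →L[ℝ] (R → ℂ × ℝ) :=
    ContinuousLinearMap.pi fun j => ∑ n ∈ range N, (l j n).smulRight (G j n 0)
  have hΦ : HasStrictFDerivAt Φ L 0 :=
    hasStrictFDerivAt_pi.2 fun j => hasStrict_sum _ (l j) (G j) (hG j)
  have hΦ0 : Φ 0 = 0 := by funext j; simp [Φ]
  have hL : ∀ t j, L t j =
      (-∑ k : Fin N, (t.1 k : ℂ) * bl en V m (e j, true) (k + 1) ^ 2,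
        t.2 j * c1 V N (en (e j)) (en (e j)) -
          ∑ k : Fin N, t.1 k * uu V (en (e j)) (k + 1) ^ 2) := by
    intro t j
    have e0 : L t j = ∑ n ∈ range N, (t.2 j - t.1 (red h.pos n)) • G j n 0 := by
      simp only [L, ContinuousLinearMap.pi_apply, _root_.sum_apply,
        ContinuousLinearMap.smulRight_apply, hl]
    rw [e0]
    refine Prod.ext ?_ ?_
    · simp only [Prod.fst_sum, Prod.smul_fst, G, hVt0, hEt0]
      have hc := hcc j
      rw [cc, sum_range] at hc
      rw [sum_range]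
      have : ∀ k : Fin N, (t.2 j - t.1 (red h.pos ((k : ℕ) : ℤ))) •
          (ss V (en (e j)) (m (e j)) (k + 1) * ss V (en (e j)) (m (e j)) (k + 1)) =
          (t.2 j : ℂ) * (ss V (en (e j)) (m (e j)) (k + 1) * ss V (en (e j)) (m (e j)) (k + 1)) -
          (t.1 k : ℂ) * bl en V m (e j, true) (k + 1) ^ 2 := by
        intro k
        rw [red_fin, Complex.real_smul]
        simp only [bl, zz, cond_true]
        push_cast; ring
      simp only [this]
      rw [sum_sub_distrib, ← mul_sum, hc]; simp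
    · simp only [Prod.snd_sum, Prod.smul_snd, G, hVt0, hEt0]
      rw [c1, sum_range, sum_range, mul_sum, ← sum_sub_distrib]
      refine sum_congr rfl fun k _ => ?_
      rw [red_fin, smul_eq_mul]; ring
  have hsurj : Function.Surjective L := by
    intro y
    obtain ⟨w, hw⟩ := exists_interp hI e he (fun j => (hR j).mu_sq _) (fun j => -(y j).1)
    refine ⟨(w, fun j => ((y j).2 + ∑ k : Fin N, w k * uu V (en (e j)) (k + 1) ^ 2) /
      c1 V N (en (e j)) (en (e j))), ?_⟩
    funext j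
    rw [hL]
    refine Prod.ext ?_ ?_
    · simp only [hw, neg_neg]
    · have := (c1_pos V h.pos (en (e j))).ne'
      simp only
      field_simp
      ring
  let t₀ : T := (w₀, fun j => (∑ k : Fin N, w₀ k * uu V (en (e j)) (k + 1) ^ 2) /
      c1 V N (en (e j)) (en (e j)))
  have ht₀ : L t₀ = 0 := by
    funext j
    rw [hL]
    refine Prod.ext ?_ ?_
    · simp only [t₀, hw3, neg_zero, Pi.zero_apply, Prod.fst_zero]
    · have := (c1_pos V h.pos (en (e j))).ne'
      simp only [t₀, Pi.zero_apply, Prod.snd_zero]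
      field_simp
      ring
  let ℓ : T →L[ℝ] ℝ := p1 (red h.pos (n₀ + M)) - p1 (red h.pos n₀)
  have hℓ : ∀ t, ℓ t = t.1 (red h.pos (n₀ + M)) - t.1 (red h.pos n₀) := fun t => rfl
  have hℓ0 : ℓ t₀ ≠ 0 := by
    rw [hℓ]
    exact sub_ne_zero.2 hn₀
  refine (ift ℓ hΦ hΦ0 hsurj ht₀ hℓ0).mono ?_
  rintro t ⟨ht1, ht2⟩
  refine ⟨fun j => ?_, fun hper => ht2 ?_⟩
  · have hj := congrFun ht1 j
    have hj1 := congrArg Prod.fst hj
    have hj2 := congrArg Prod.snd hj
    simp only [Φ, Prod.fst_sum, Prod.smul_fst, Prod.snd_sum, Prod.smul_snd, G, hl,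
      Pi.zero_apply, Prod.fst_zero, Prod.snd_zero] at hj1 hj2
    have g1 := green_ss (Vt t) V (Et j t) (en (e j)) (m (e j)) (m (e j)) N
    have g2 := green_uu (Vt t) V (Et j t) (en (e j)) N
    have q : ∀ n : ℕ, Et j t - Vt t n - (en (e j) - V n) = t.2 j - t.1 (red h.pos n) := by
      intro n; simp only [Et, Vt]; ring
    simp only [q] at g1 g2
    simp only [Complex.real_smul] at hj1
    simp only [smul_eq_mul] at hj2
    rw [hj1, (hR j).ss_N, (hR j).ss_N1] at g1
    rw [hj2, (hR j).1, (hR j).2.2] at g2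
    have hs := (hR j).sq
    have hs0 : vv V (en (e j)) N ≠ 0 := by
      intro h0; rw [h0] at hs; simp at hs
    refine closed_of_u (z := m (e j)) (h.im_pos _).ne' ?_ ?_
    · have hs1 : (vv V (en (e j)) N : ℂ) ≠ 0 := by exact_mod_cast hs0
      apply mul_left_cancel₀ hs1
      simp only [aa]
      linear_combination g1
    · apply mul_left_cancel₀ hs0
      linear_combination -g2
  · rw [hℓ, hper n₀, sub_self]

/-- A periodic potential whose spectrum stably contains the energies `en y`, with bounds. -/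
def Good2 [TopologicalSpace Y] (en : Y → ℝ) (B : ℝ) (V : ℤ → ℝ) (N : ℕ) : Prop :=
  ∃ (m : Y → ℂ) (c : ℕ), Continuous m ∧ Data en V N m ∧ Inv en V N m ∧ Cnt en V N m c ∧
    2 * c < N ∧ ∀ y, 1 < B * (m y).im ∧ ∀ n < N, ‖ss V (en y) (m y) n‖ < B

lemma norm_lt {en : Y → ℝ} {V : ℤ → ℝ} {N : ℕ} {m : Y → ℂ} {B : ℝ} (h : Data en V N m) {y : Y}
    (hb : ∀ n < N, ‖ss V (en y) (m y) n‖ < B) (n : ℕ) : ‖ss V (en y) (m y) n‖ < B := by
  rw [← Nat.mod_add_div' n N, norm_ss_shift h.per (h.im_pos y).ne' (h.bloch y)]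
  exact hb _ (Nat.mod_lt _ h.pos)

lemma Good2.mul [TopologicalSpace Y] {en : Y → ℝ} {B : ℝ} {V : ℤ → ℝ} {N N' : ℕ}
    (h : Good2 en B V N) (h0 : 0 < N') (hN : N ∣ N') : Good2 en B V N' := by
  obtain ⟨r, rfl⟩ := hN
  obtain ⟨m, c, hm, hD, hI, hc, h2, hb⟩ := h
  have hr : 0 < r := Nat.pos_of_mul_pos_left h0
  rw [mul_comm]
  exact ⟨m, r * c, hm, data_mul hD hr, inv_mul hD hI hc (by omega) hr, cnt_mul hD hc hr,
    by nlinarith, fun y => ⟨(hb y).1, fun n _ => norm_lt hD (hb y).2 n⟩⟩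

/-- The inductive step. -/
lemma Good2.step [TopologicalSpace Y] [CompactSpace Y] (hY : ∀ y : Y, (𝓝[≠] y).NeBot)
    {en : Y → ℝ} (hen : Continuous en) (hinj : Function.Injective en) {B : ℝ} {V : ℤ → ℝ}
    {N M' : ℕ} (h : Good2 en B V N) (hM0 : 0 < M') (hM : 2 * M' ≤ N) {δ : ℝ} (hδ : 0 < δ) :
    ∃ W : ℤ → ℝ, (∀ n, |W n| ≤ δ) ∧ Good2 en B (fun n => V n + W n) N ∧
      ¬ ∀ n : ℤ, W (n + M') = W n := by
  classical
  obtain ⟨m, c, hm, h2, hI2, hc, hc2, hb⟩ := h
  let R := {y : Y // bl en V m (y, true) N ^ 2 = 1}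
  have : Finite R := by
    have := hI2.finite 1
    refine Finite.of_injective (β := {x : Y × Bool // bl en V m x N ^ 2 = 1})
      (fun y => ⟨(y.1, true), y.2⟩) ?_
    intro a b hab
    simp only [Subtype.mk.injEq, Prod.mk.injEq, and_true] at hab
    exact Subtype.ext hab
  have : Fintype R := Fintype.ofFinite R
  have hR : ∀ j : R, Closed V N (en j.1) := fun j =>
    closed_of_sq (h2.im_pos j.1).ne' (h2.bloch j.1) j.2
  have hcc : ∀ (j : R) (y : Y), cc V N (en y) (en j.1) (m y) = 0 := fun j y =>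
    cc_root_zero hY hen hinj h2 hm (hR j) y
  have hfr := exists_closing2 h2 hI2 hc hM0 (by omega) (fun j : R => j.1) Subtype.val_injective hR
    (fun j => hcc j j.1)
  let T := (Fin N → ℝ) × (R → ℝ)
  let Vt : T → ℤ → ℝ := fun t n => V n + t.1 (red h2.pos n)
  let Ft : T → R → ℝ := fun t j => en j.1 + t.2 j
  let P : Y → ℝ := fun y => ∏ j : R, (en y - en j.1)
  let Q : Y → R → ℝ := fun y j => (∏ k ∈ univ.erase j, (en y - en k.1)) * vv V (en j.1) N
  let D1 : T × Y → ℝ := fun p => d1 N (P p.2) (Q p.2) (Vt p.1) (en p.2) (Ft p.1)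
  let D2 : T × Y → ℝ := fun p => d2 N (P p.2) (Q p.2) (Vt p.1) (en p.2) (Ft p.1)
  let D3 : T × Y → ℝ := fun p => d3 N (P p.2) (Q p.2) (Vt p.1) (en p.2) (Ft p.1)
  have hVt : ∀ n, Continuous fun t => Vt t n := by
    intro n; simp only [Vt, T]; fun_prop
  have hP : Continuous fun p : T × Y => P p.2 := by simp only [P]; fun_prop
  have hQ : ∀ j, Continuous fun p : T × Y => Q p.2 j := by intro j; simp only [Q]; fun_prop
  have hV' : ∀ n, Continuous fun p : T × Y => Vt p.1 n := fun n => (hVt n).comp continuous_fst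
  have hE' : Continuous fun p : T × Y => en p.2 := hen.comp continuous_snd
  have hF' : ∀ j, Continuous fun p : T × Y => Ft p.1 j := by
    intro j; simp only [Ft, T]; fun_prop
  have cD1 : Continuous D1 := continuous_d1 hP hQ hV' hE' hF'
  have cD2 : Continuous D2 := continuous_d2 hP hQ hV' hE' hF'
  have cD3 : Continuous D3 := continuous_d3 hP hQ hV' hE' hF'
  let M : T → Y → ℂ := fun t y => fix (D1 (t, y)) (D2 (t, y)) (D3 (t, y))
  have hVt0 : Vt 0 = V := by funext n; simp [Vt]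
  have hFt0 : Ft 0 = fun j => en j.1 := by funext j; simp [Ft]
  have hD10 : ∀ y, D1 (0, y) ≠ 0 := by
    intro y
    simp only [D1, hVt0, hFt0, P, Q]
    refine d1_ne_zero (F := fun j : R => en j.1) h2.pos (hinj.comp Subtype.val_injective) hR ?_
    intro hy hu
    have := (closed_of_u (h2.im_pos y).ne' (h2.bloch y) hu).mu_sq (m y)
    exact hy ⟨y, this⟩ rfl
  have hM0 : ∀ y, 0 < 4 * D1 (0, y) * D3 (0, y) - D2 (0, y) ^ 2 ∧ M 0 y = m y := by
    intro y
    refine fix_unique (h2.im_pos y) ?_ (hD10 y)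
    simp only [D1, D2, D3, hVt0, hFt0]
    rw [d_expand, h2.bloch]
    simp [hcc]
  have hM0' : M 0 = m := funext fun y => (hM0 y).2
  have ev1 : ∀ᶠ t in 𝓝 (0 : T), ∀ y, 0 < 4 * D1 (t, y) * D3 (t, y) - D2 (t, y) ^ 2 := by
    have := (isCompact_univ (X := Y)).eventually_forall_of_forall_eventually (x₀ := (0 : T))
      (P := fun t y => 0 < 4 * D1 (t, y) * D3 (t, y) - D2 (t, y) ^ 2) ?_
    · filter_upwards [this] with t ht y
      exact ht y trivial
    intro y _
    have hc : Continuous fun p : T × Y => 4 * D1 p * D3 p - D2 p ^ 2 := by fun_prop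
    exact hc.continuousAt.eventually (lt_mem_nhds (hM0 y).1)
  have ev2 := eventually_not_bad hen (t₀ := (0 : T)) (V := Vt) (M := M) (N := N) hVt
    (fun y => continuousAt_fix cD1 cD2 cD3 (hD10 y)) (by rw [hVt0, hM0']; exact h2)
    (by rw [hVt0, hM0']; exact hI2)
  have ev3 : ∀ᶠ t in 𝓝 (0 : T), ‖t.1‖ < δ := by
    have hc : Continuous fun t : T => ‖t.1‖ := by fun_prop
    exact hc.continuousAt.eventually (gt_mem_nhds (by simpa using hδ))
  have hMc : ∀ y, ContinuousAt (fun p : T × Y => M p.1 p.2) (0, y) := fun y =>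
    continuousAt_fix cD1 cD2 cD3 (hD10 y)
  have ev4 := eventually_not_bad2 (c := c) hen (t₀ := (0 : T)) (V := Vt) (M := M) (N := N) hVt
    hMc (by rw [hVt0, hM0']; exact h2) (by rw [hVt0, hM0']; exact hc)
  have ev5 : ∀ᶠ t in 𝓝 (0 : T), ∀ y, 1 < B * (M t y).im ∧
      ∀ n ∈ range N, ‖ss (Vt t) (en y) (M t y) n‖ < B := by
    have := (isCompact_univ (X := Y)).eventually_forall_of_forall_eventually (x₀ := (0 : T))
      (P := fun t y => 1 < B * (M t y).im ∧ ∀ n ∈ range N, ‖ss (Vt t) (en y) (M t y) n‖ < B) ?_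
    · filter_upwards [this] with t ht y
      exact ht y trivial
    intro y _
    refine Eventually.and ?_ ((eventually_all_finset _).2 fun n hn => ?_)
    · refine (continuousAt_const.mul (Complex.continuous_im.continuousAt.comp (hMc y))).eventually
        (lt_mem_nhds ?_)
      change 1 < B * (M 0 y).im
      rw [hM0']
      exact (hb y).1
    · refine (continuousAt_ss hV' hE' (hMc y) n).norm.eventually (gt_mem_nhds ?_)
      change ‖ss (Vt 0) (en y) (M 0 y) n‖ < B
      rw [hM0', hVt0]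
      exact (hb y).2 n (mem_range.1 hn)
  obtain ⟨t, ⟨ht1, ht2⟩, ht3, ht4, ht5, ht6, ht7⟩ :=
    (hfr.and_eventually (ev1.and (ev2.and (ev3.and (ev4.and ev5))))).exists
  have hDt : Data en (Vt t) N (M t) :=
    { pos := h2.pos
      per := fun n => by simp only [Vt]; rw [h2.per, red_add]
      im_pos := fun y => (fix_spec (ht3 y)).1
      bloch := fun y => aa_fix_zero ht1 (ht3 y) }
  refine ⟨fun n => t.1 (red h2.pos n), fun n => (norm_le_pi_norm t.1 _).trans ht5.le,
    ⟨M t, c, ?_, hDt, inv_of_not_bad hinj hDt ht4, cnt_of_not_bad2 hinj hDt ht6, hc2,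
      fun y => ⟨(ht7 y).1, fun n hn => (ht7 y).2 n (mem_range.2 hn)⟩⟩, ht2⟩
  refine continuous_iff_continuousAt.2 fun y => ?_
  have hy : Continuous fun y : Y => (t, y) := by fun_prop
  refine continuousAt_fix (cD1.comp hy) (cD2.comp hy) (cD3.comp hy) ?_
  intro h0
  have := ht3 y
  have h0' : D1 (t, y) = 0 := h0
  rw [h0'] at this
  nlinarith [sq_nonneg (D2 (t, y))]

end Pool.Agent.P.MP_c9a3a4_mp.H
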